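import Mathlib
import Pool.Agent.H28.L1Lift

open Filter Topology Set Pool.Agent.H28.L1Lift

noncomputable section

namespace Pool.Agent.Results.MP_fd6f9a_an.ClassV

/-- approximate polynomial semigroups -/
def Bad (N : ℕ) (M c η : ℝ) (P : ℝ → ℕ → ℂ) : Prop :=
  (∀ t k, ‖P t k‖ ≤ M) ∧ (∀ t, P t 0 = 0) ∧ c ≤ ∑ k ∈ Finset.range (N + 1), ‖P 4 k‖ ∧
    ∀ s t k, 1 ≤ s → 1 ≤ t → s + t ≤ 4 → k ≤ N →
      ‖P (s + t) k - ∑ p ∈ Finset.HasAntidiagonal.antidiagonal k, P s p.1 * P t p.2‖ ≤ η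

lemma exact (N : ℕ) (M c : ℝ) (hc : 0 < c) (P : ℝ → ℕ → ℂ) : ¬ Bad N M c 0 P := by
  rintro ⟨-, h0, h4, h⟩
  let v : ℝ → ℕ∞ := fun t => (PowerSeries.mk (P t)).order
  have key : ∀ s t, 1 ≤ s → 1 ≤ t → s + t ≤ 4 → v (s + t) ≤ N → v s + v t = v (s + t) :=
    fun s t hs ht hst hv => by
      rw [← PowerSeries.order_mul]
      have e : ∀ k ≤ N, PowerSeries.coeff k (PowerSeries.mk (P s) * PowerSeries.mk (P t)) =
          PowerSeries.coeff k (PowerSeries.mk (P (s + t))) := fun k hk => by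
        have := norm_le_zero_iff.1 (h s t k hs ht hst hk)
        simp only [PowerSeries.coeff_mul, PowerSeries.coeff_mk]
        exact (sub_eq_zero.1 this).symm
      obtain ⟨n, hn⟩ := ENat.ne_top_iff_exists.1 (ne_top_of_le_ne_top (ENat.coe_ne_top N) hv)
      have hn' := PowerSeries.order_eq_nat.1 hn.symm
      have nN : n ≤ N := by rw [← hn] at hv; exact_mod_cast hv
      rw [← hn]
      exact PowerSeries.order_eq_nat.2 ⟨by rw [e n nN]; exact hn'.1,
        fun i hi => by rw [e i (by omega)]; exact hn'.2 i hi⟩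
  have v4 : v 4 ≤ N := by
    obtain ⟨k, hk, hk'⟩ := Finset.exists_ne_zero_of_sum_ne_zero (hc.trans_le h4).ne'
    refine (PowerSeries.order_le k (by simpa using hk')).trans ?_
    exact_mod_cast Nat.lt_succ_iff.1 (Finset.mem_range.1 hk)
  have fin : ∀ t, 1 ≤ t → t ≤ 3 → v t ≤ N := fun t h1 h2 => by
    have := key t (4 - t) h1 (by linarith) (by linarith) (by simpa using v4)
    exact le_self_add.trans (this.le.trans (by simpa using v4))
  have ex : ∀ t, ∃ n : ℕ, 1 ≤ t → t ≤ 3 → v t = n := fun t => by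
    by_cases h : 1 ≤ t ∧ t ≤ 3
    · obtain ⟨n, hn⟩ := ENat.ne_top_iff_exists.1
        (ne_top_of_le_ne_top (ENat.coe_ne_top N) (fin t h.1 h.2))
      exact ⟨n, fun _ _ => hn.symm⟩
    · exact ⟨0, fun a b => absurd ⟨a, b⟩ h⟩
  choose w hw using ex
  have add : ∀ s t, 1 ≤ s → 1 ≤ t → s + t ≤ 3 → w s + w t = w (s + t) := fun s t hs ht hst => by
    have := key s t hs ht (by linarith) (fin _ (by linarith) hst)
    rw [hw s hs (by linarith), hw t ht (by linarith), hw _ (by linarith) hst] at this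
    exact_mod_cast this
  set a : ℝ := 1 / (N + 1) with ha
  have a0 : 0 < a := by positivity
  have a1 : (N + 1) * a = 1 := by rw [ha]; field_simp
  have ind : ∀ j : ℕ, j ≤ N + 1 → (w (1 + j * a) : ℤ) - w 1 = j * (w (1 + a) - w 1) := fun j => by
    induction j with
    | zero => simp
    | succ j ih =>
      intro hj
      have hj' : ((j : ℝ) + 1) * a ≤ 1 := by
        exact (mul_le_mul_of_nonneg_right (by exact_mod_cast hj) a0.le).trans a1.le
      have j0 : 0 ≤ j * a := by positivity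
      have e1 := add (1 + j * a) (1 + a) (by linarith) (by linarith) (by linarith)
      have e2 := add 1 (1 + (j + 1 : ℕ) * a) le_rfl (by push_cast; nlinarith) (by push_cast; linarith)
      rw [show 1 + (1 + ((j + 1 : ℕ) : ℝ) * a) = 1 + j * a + (1 + a) by push_cast; ring] at e2
      have := ih (by omega)
      push_cast at *
      have e3 : (w (1 + j * a) : ℤ) + w (1 + a) = w 1 + w (1 + (j + 1) * a) := by
        exact_mod_cast e1.trans e2.symm
      linarith
  have e := ind (N + 1) le_rfl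
  push_cast at e
  rw [a1, ← add 1 1 le_rfl le_rfl (by norm_num)] at e
  have w1 : w 1 ≤ N := by
    have := fin 1 le_rfl (by norm_num)
    rw [hw 1 le_rfl (by norm_num)] at this
    exact_mod_cast this
  have w0 : w 1 ≠ 0 := fun h => by
    have := hw 1 le_rfl (by norm_num)
    rw [h] at this
    exact (PowerSeries.order_eq_nat.1 this).1 (by simpa using h0 1)
  have d : N + 1 ∣ w 1 := by
    have : ((N + 1 : ℕ) : ℤ) ∣ w 1 := ⟨w (1 + a) - w 1, by push_cast at e ⊢; linarith⟩
    exact_mod_cast this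
  have := Nat.le_of_dvd (by omega) d
  omega

lemma gap (N : ℕ) (M c : ℝ) (hc : 0 < c) : ∃ η > 0, ∀ P, ¬ Bad N M c η P := by
  by_contra H
  push Not at H
  have cl : ∀ η, IsClosed {P | Bad N M c η P} := fun η => by
    simp only [Bad, setOf_and, setOf_forall]
    refine (isClosed_iInter fun t => isClosed_iInter fun k => isClosed_le (by fun_prop)
      continuous_const).inter ((isClosed_iInter fun t => isClosed_eq (by fun_prop)
      continuous_const).inter ((isClosed_le continuous_const (by fun_prop)).inter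
      (isClosed_iInter fun s => isClosed_iInter fun t => isClosed_iInter fun k =>
        isClosed_iInter fun _ => isClosed_iInter fun _ => isClosed_iInter fun _ =>
        isClosed_iInter fun _ => isClosed_le (by fun_prop) continuous_const)))
  have K : IsCompact (univ.pi fun _ : ℝ => univ.pi fun _ : ℕ => Metric.closedBall (0 : ℂ) M) :=
    isCompact_univ_pi fun _ => isCompact_univ_pi fun _ => isCompact_closedBall _ _
  obtain ⟨P, hP⟩ := IsCompact.nonempty_iInter_of_sequence_nonempty_isCompact_isClosed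
    (fun j : ℕ => {P | Bad N M c (1 / (j + 1)) P})
    (fun j P h => ⟨h.1, h.2.1, h.2.2.1, fun s t k a b c d => (h.2.2.2 s t k a b c d).trans
      (Nat.one_div_le_one_div (Nat.le_succ j))⟩)
    (fun j => H _ (by positivity))
    (K.of_isClosed_subset (cl _) fun P h t _ k _ => by simpa using h.1 t k) fun j => cl _
  rw [mem_iInter] at hP
  exact exact N M c hc P ⟨(hP 0).1, (hP 0).2.1, (hP 0).2.2.1, fun s t k a b c d =>
    ge_of_tendsto' tendsto_one_div_add_atTop_nhds_zero_nat fun j => (hP j).2.2.2 s t k a b c d⟩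

/-- the tolerance at level `n` -/
def eta (n : ℕ) : ℝ := (gap n.factorial n (1 / (n + 1)) (by positivity)).choose
lemma eta_pos (n : ℕ) : 0 < eta n := (gap _ _ _ (by positivity)).choose_spec.1
lemma eta_spec (n : ℕ) (P : ℝ → ℕ → ℂ) : ¬ Bad n.factorial n (1 / (n + 1)) (eta n) P :=
  (gap _ _ _ (by positivity)).choose_spec.2 P

def InG (n : ℕ) (q : ℚ) : Prop := ∃ k : ℤ, q = k / n.factorial
lemma InG.mono {m n : ℕ} {q : ℚ} (h : InG m q) (hmn : m ≤ n) : InG n q := by
  obtain ⟨k, rfl⟩ := h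
  obtain ⟨d, hd⟩ := Nat.factorial_dvd_factorial hmn
  have : (d : ℚ) ≠ 0 := by
    rintro h
    have : d = 0 := by exact_mod_cast h
    exact n.factorial_ne_zero (by rw [hd, this, mul_zero])
  refine ⟨k * d, ?_⟩
  rw [hd]; push_cast; field_simp
lemma exG (q : ℚ) : ∃ n, InG n q := by
  obtain ⟨d, hd⟩ := Nat.dvd_factorial q.den_pos le_rfl
  have : (d : ℚ) ≠ 0 := by
    rintro h
    have : d = 0 := by exact_mod_cast h
    exact q.den.factorial_ne_zero (by rw [hd, this, mul_zero])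
  refine ⟨q.den, q.num * d, ?_⟩
  rw [hd]; push_cast
  rw [mul_div_mul_right _ _ this, Rat.num_div_den]
lemma InG.add {n : ℕ} {s u : ℚ} (hs : InG n s) (hu : InG n u) : InG n (s + u) := by
  obtain ⟨k, rfl⟩ := hs
  obtain ⟨l, rfl⟩ := hu
  exact ⟨k + l, by push_cast; ring⟩

open Classical in
def lev (q : ℚ) : ℕ := Nat.find (exG q)
def W (n : ℕ) : ℝ := 1 + ∑ m ∈ Finset.range n, m ^ 2 / eta m
def ω (q : ℚ) : ℝ := W (lev q)

lemma W_mono : Monotone W := fun m n h => by
  unfold W
  gcongr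
  exact fun i _ _ => by have := eta_pos i; positivity
lemma W1 (n : ℕ) : 1 ≤ W n := by simpa [W] using W_mono n.zero_le
lemma ω1 (q : ℚ) : 1 ≤ ω q := W1 _
lemma ω0 (q : ℚ) : 0 < ω q := one_pos.trans_le (ω1 q)
open Classical in
lemma ω_add (s u : ℚ) : ω (s + u) ≤ ω s * ω u := by
  have : lev (s + u) ≤ max (lev s) (lev u) := Nat.find_min' _
    (((Nat.find_spec (exG s)).mono (le_max_left _ _)).add
      ((Nat.find_spec (exG u)).mono (le_max_right _ _)))
  have h1 := ω1 s
  have h2 := ω1 u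
  rcases le_max_iff.1 this with h | h
  · exact (W_mono h).trans (le_mul_of_one_le_right (ω0 s).le h2)
  · exact (W_mono h).trans (le_mul_of_one_le_left (ω0 u).le h1)
open Classical in
lemma ω_big {n : ℕ} {q : ℚ} (h : ¬ InG n q) : n ^ 2 / eta n ≤ ω q := by
  have : n + 1 ≤ lev q := not_le.1 fun h' => h ((Nat.find_spec (exG q)).mono h')
  refine le_trans ?_ (W_mono this)
  have := W1 n
  unfold W at *
  rw [Finset.sum_range_succ]
  linarith

abbrev E := L1 ℂ ℚ

/-- `δ_q`, zero outside `(0,1]`. -/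
def δ (q : ℚ) : E := if 0 < q ∧ q ≤ 1 then (ω q : ℂ) • e ℂ q else 0

def m (s u : ℚ) : E := if 0 < s ∧ 0 < u then ((ω s * ω u : ℝ) : ℂ)⁻¹ • δ (s + u) else 0

lemma m_le (s u : ℚ) : ‖m s u‖ ≤ 1 := by
  have := ω0 s; have := ω0 u; have := ω0 (s + u)
  unfold m δ
  split_ifs
  · rw [norm_smul, norm_smul, norm_e, norm_inv, Complex.norm_real, Complex.norm_real,
      Real.norm_of_nonneg (by positivity), Real.norm_of_nonneg (by positivity), mul_one,
      inv_mul_le_iff₀ (by positivity), mul_one]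
    exact ω_add s u
  all_goals simp

lemma exB : ∃ B : E →L[ℂ] E →L[ℂ] E, (∀ s u, B (e ℂ s) (e ℂ u) = m s u) ∧
    ∀ x y, ‖B x y‖ ≤ ‖x‖ * ‖y‖ := by
  choose T hT hT' using fun s => exists_lift (𝕜 := ℂ) (m s) 1 (m_le s)
  obtain ⟨B, h1, h2⟩ := exists_lift (𝕜 := ℂ) T 1 fun s =>
    ContinuousLinearMap.opNorm_le_bound _ zero_le_one (hT' s)
  refine ⟨B, fun s u => by rw [h1, hT], fun x y => ((B x).le_opNorm y).trans ?_⟩
  exact mul_le_mul_of_nonneg_right (by simpa using h2 x) (norm_nonneg _)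

def B : E →L[ℂ] E →L[ℂ] E := exB.choose
lemma Be (s u : ℚ) : B (e ℂ s) (e ℂ u) = m s u := exB.choose_spec.1 s u

lemma ωc (q : ℚ) : (ω q : ℂ) ≠ 0 := Complex.ofReal_ne_zero.2 (ω0 q).ne'

lemma Bcomm (x y : E) : B x y = B y x := by
  have : B = B.flip := ext_e fun s => ext_e fun u => by
    rw [ContinuousLinearMap.flip_apply, Be, Be, m, m, add_comm, mul_comm (ω s)]
    simp only [and_comm]
  conv_lhs => rw [this]
  rfl

lemma Bδ (s u : ℚ) : B (δ s) (e ℂ u) =
    if 0 < s ∧ 0 < u then (ω u : ℂ)⁻¹ • δ (s + u) else 0 := by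
  by_cases h : 0 < s ∧ s ≤ 1
  · rw [δ, if_pos h, map_smul, ContinuousLinearMap.smul_apply, Be, m]
    split_ifs
    · rw [smul_smul]; congr 1; have := ωc s; have := ωc u; push_cast; field_simp
    · simp
  · rw [δ, if_neg h, map_zero, ContinuousLinearMap.zero_apply]
    split_ifs with h2
    · rw [δ, if_neg, smul_zero]
      exact fun h3 => h ⟨h2.1, by linarith [h3.2, h2.2]⟩
    · rfl

lemma Bδδ {s u : ℚ} (hs : 0 < s) (hu : 0 < u) : B (δ s) (δ u) = δ (s + u) := by
  by_cases h : u ≤ 1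
  · rw [δ.eq_1 u, if_pos ⟨hu, h⟩, map_smul, Bδ, if_pos ⟨hs, hu⟩, smul_smul, mul_inv_cancel₀ (ωc u),
      one_smul]
  · rw [δ.eq_1 u, if_neg (fun h' => h h'.2), map_zero, δ, if_neg fun h' => h (by linarith [h'.2])]

lemma Bm (s u v : ℚ) : B (m s u) (e ℂ v) =
    if 0 < s ∧ 0 < u ∧ 0 < v then ((ω s * ω u * ω v : ℝ) : ℂ)⁻¹ • δ (s + u + v) else 0 := by
  by_cases h : 0 < s ∧ 0 < u
  · rw [m, if_pos h, map_smul, ContinuousLinearMap.smul_apply, Bδ]
    by_cases hv : 0 < v
    · rw [if_pos ⟨add_pos h.1 h.2, hv⟩, if_pos ⟨h.1, h.2, hv⟩, smul_smul]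
      congr 1; push_cast; ring
    · simp [hv]
  · rw [m, if_neg h, if_neg fun h' => h ⟨h'.1, h'.2.1⟩]; simp

lemma Bassoc (x y z : E) : B (B x y) z = B x (B y z) := by
  have h1 : ∀ s u v, B (B (e ℂ s) (e ℂ u)) (e ℂ v) = B (e ℂ s) (B (e ℂ u) (e ℂ v)) := fun s u v => by
    rw [Bcomm (e ℂ s) (B _ _), Be, Be, Bm, Bm, show u + v + s = s + u + v by ring,
      show ω u * ω v * ω s = ω s * ω u * ω v by ring]
    exact if_congr (by tauto) rfl rfl
  have h2 : ∀ s u z, B (B (e ℂ s) (e ℂ u)) z = B (e ℂ s) (B (e ℂ u) z) := fun s u z =>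
    DFunLike.congr_fun (ext_e (f := B (B (e ℂ s) (e ℂ u))) (g := (B (e ℂ s)).comp (B (e ℂ u)))
      (h1 s u)) z
  have h3 : ∀ s y z, B (B (e ℂ s) y) z = B (e ℂ s) (B y z) := fun s y z =>
    DFunLike.congr_fun (ext_e (f := (B.flip z).comp (B (e ℂ s))) (g := (B (e ℂ s)).comp (B.flip z))
      fun u => h2 s u z) y
  exact DFunLike.congr_fun (ext_e (f := (B.flip z).comp (B.flip y)) (g := B.flip (B y z))
      fun s => h3 s y z) x

/-- coefficient functional -/
def c (q : ℚ) : E →L[ℂ] ℂ := (ω q : ℂ)⁻¹ • lp.evalCLM ℂ (fun _ : ℚ => ℂ) 1 q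
lemma c_apply (q : ℚ) (x : E) : c q x = (ω q : ℂ)⁻¹ * x q := rfl
lemma c_e (q s : ℚ) : c q (e ℂ s) = if q = s then (ω s : ℂ)⁻¹ else 0 := by
  rw [c_apply, e, lp.single_apply, Pi.single_apply]
  split_ifs with h <;> simp [h]
lemma c_δ (q s : ℚ) : c q (δ s) = if q = s ∧ 0 < s ∧ s ≤ 1 then 1 else 0 := by
  unfold δ
  by_cases h : 0 < s ∧ s ≤ 1
  · rw [if_pos h, map_smul, c_e]
    by_cases h2 : q = s
    · simp [h, h2, mul_inv_cancel₀ (ωc s)]
    · simp [h2]
  · simp [h]
lemma c_le (q : ℚ) (x : E) : ‖c q x‖ ≤ ‖x‖ := by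
  rw [c_apply, norm_mul, norm_inv, Complex.norm_real, Real.norm_of_nonneg (ω0 q).le]
  exact (mul_le_of_le_one_left (norm_nonneg _) (inv_le_one_of_one_le₀ (ω1 q))).trans
    (lp.norm_apply_le_norm one_ne_zero x q)

lemma bil (F : E →L[ℂ] E →L[ℂ] ℂ) (C : ℝ) (hC : 0 ≤ C) (h : ∀ s u, ‖F (e ℂ s) (e ℂ u)‖ ≤ C)
    (x y : E) : ‖F x y‖ ≤ C * ‖x‖ * ‖y‖ :=
  ((F x).le_opNorm y).trans (mul_le_mul_of_nonneg_right (norm_le_of_e F C (fun s =>
    ContinuousLinearMap.opNorm_le_bound _ hC (norm_le_of_e _ C (h s))) x) (norm_nonneg _))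

lemma supp (q : ℚ) (hq : ¬ (0 < q ∧ q ≤ 1)) (x y : E) : c q (B x y) = 0 := by
  have := bil ((ContinuousLinearMap.compL ℂ E E ℂ (c q)).comp B) 0 le_rfl (fun s u => by
    show ‖c q (B _ _)‖ ≤ 0
    rw [Be, m]
    split_ifs
    · rw [map_smul, c_δ, if_neg fun h => hq (by rw [h.1]; exact h.2)]; simp
    · simp) x y
  simpa using this

/-- the coefficient of `k / n!`, for `k > 0` -/
def cc (n k : ℕ) : E →L[ℂ] ℂ := if k = 0 then 0 else c (k / n.factorial)

lemma approx (n k : ℕ) (hn : 1 ≤ n) (hk : k ≤ n.factorial) (x y : E) :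
    ‖cc n k (B x y) - ∑ p ∈ Finset.HasAntidiagonal.antidiagonal k, cc n p.1 x * cc n p.2 y‖ ≤
      eta n / n ^ 2 * ‖x‖ * ‖y‖ := by
  have e0 := eta_pos n
  have f0 : (0 : ℚ) < n.factorial := by exact_mod_cast n.factorial_pos
  have := bil ((ContinuousLinearMap.compL ℂ E E ℂ (cc n k)).comp B -
    ∑ p ∈ Finset.HasAntidiagonal.antidiagonal k, (ContinuousLinearMap.mul ℂ ℂ).bilinearComp (cc n p.1) (cc n p.2))
    (eta n / n ^ 2) (by positivity) (fun s u => ?_) x y
  · simpa [ContinuousLinearMap.sum_apply] using this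
  have E1 : ‖cc n k (m s u) - ∑ p ∈ Finset.HasAntidiagonal.antidiagonal k, cc n p.1 (e ℂ s) * cc n p.2 (e ℂ u)‖ ≤
      eta n / n ^ 2 := by
    by_cases h : (∃ i : ℕ, i ≠ 0 ∧ (i : ℚ) / n.factorial = s) ∧
        ∃ j : ℕ, j ≠ 0 ∧ (j : ℚ) / n.factorial = u
    · obtain ⟨⟨i, i0, rfl⟩, j, j0, rfl⟩ := h
      have inj : ∀ a b : ℕ, (a : ℚ) / n.factorial = b / n.factorial ↔ a = b := fun a b => by
        rw [div_left_inj' f0.ne']; exact Nat.cast_inj
      have t : ∀ a b : ℕ, b ≠ 0 → cc n a (e ℂ (b / n.factorial)) =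
          if a = b then (ω (b / n.factorial) : ℂ)⁻¹ else 0 := fun a b hb => by
        unfold cc
        split_ifs with h1 h2 h2
        · omega
        · rfl
        · rw [c_e, if_pos ((inj _ _).2 h2)]
        · rw [c_e, if_neg fun h => h2 ((inj _ _).1 h)]
      have p1 : (0 : ℚ) < i / n.factorial := by positivity
      have p2 : (0 : ℚ) < j / n.factorial := by positivity
      have z : ∑ p ∈ Finset.HasAntidiagonal.antidiagonal k, cc n p.1 (e ℂ (i / n.factorial)) *
          cc n p.2 (e ℂ (j / n.factorial)) = if i + j = k then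
          (ω (i / n.factorial) : ℂ)⁻¹ * (ω (j / n.factorial) : ℂ)⁻¹ else 0 := by
        split_ifs with hij
        · rw [Finset.sum_eq_single_of_mem (i, j) (by simpa using hij), t _ _ i0, t _ _ j0,
            if_pos rfl, if_pos rfl]
          rintro ⟨a, b⟩ _ hne
          rw [t _ _ i0, t _ _ j0]
          split_ifs with h1 h2
          · exact absurd (Prod.ext h1 h2) hne
          all_goals simp
        · refine Finset.sum_eq_zero fun p hp => ?_
          rw [t _ _ i0, t _ _ j0]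
          split_ifs with h1 h2
          · exact absurd (by simpa [h1, h2] using Finset.HasAntidiagonal.mem_antidiagonal.1 hp) hij
          all_goals simp
      have z2 : cc n k (δ (i / n.factorial + j / n.factorial)) = if i + j = k then 1 else 0 := by
        rw [← add_div, ← Nat.cast_add]
        unfold cc
        split_ifs with h1 h2 h2
        · omega
        · rfl
        · rw [c_δ, h2, if_pos ⟨rfl, by positivity, (div_le_one f0).2 (by exact_mod_cast hk)⟩]
        · rw [c_δ, if_neg fun h => h2 ((inj _ _).1 h.1).symm]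
      rw [z, m, if_pos ⟨p1, p2⟩, map_smul, z2]
      split_ifs
      · simp [mul_comm]; positivity
      · simp; positivity
    · have z : ∑ p ∈ Finset.HasAntidiagonal.antidiagonal k, cc n p.1 (e ℂ s) * cc n p.2 (e ℂ u) = 0 :=
        Finset.sum_eq_zero fun p _ => by
          by_contra h0
          obtain ⟨h1, h2⟩ := mul_ne_zero_iff.1 h0
          unfold cc at h1 h2
          refine h ⟨⟨p.1, ?_⟩, ⟨p.2, ?_⟩⟩
          · split_ifs at h1 with h3
            · simp at h1
            · exact ⟨h3, by_contra fun h4 => h1 (by rw [c_e, if_neg h4])⟩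
          · split_ifs at h2 with h3
            · simp at h2
            · exact ⟨h3, by_contra fun h4 => h2 (by rw [c_e, if_neg h4])⟩
      rw [z, sub_zero, m]
      split_ifs with h1
      · have ng : ¬ InG n s ∨ ¬ InG n u := by
          by_contra h2
          push Not at h2
          have nat : ∀ q : ℚ, 0 < q → InG n q → ∃ i : ℕ, i ≠ 0 ∧ (i : ℚ) / n.factorial = q := by
            rintro _ hq ⟨i, rfl⟩
            have : (0 : ℚ) < i := (div_pos_iff_of_pos_right f0).1 hq
            have : 0 < i := by exact_mod_cast this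
            lift i to ℕ using this.le
            exact ⟨i, by omega, by simp⟩
          exact h ⟨nat s h1.1 h2.1, nat u h1.2 h2.2⟩
        have big : n ^ 2 / eta n ≤ ω s * ω u := by
          rcases ng with h2 | h2
          · exact (ω_big h2).trans (le_mul_of_one_le_right (ω0 s).le (ω1 u))
          · exact (ω_big h2).trans (le_mul_of_one_le_left (ω0 u).le (ω1 s))
        have l : ‖cc n k (δ (s + u))‖ ≤ 1 := by
          unfold cc
          split_ifs
          · simp
          · rw [c_δ]; split_ifs <;> simp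
        have := ω0 s; have := ω0 u
        rw [map_smul, norm_smul, norm_inv, Complex.norm_real, Real.norm_of_nonneg (by positivity)]
        refine (mul_le_of_le_one_right (by positivity) l).trans ?_
        rw [← inv_div]
        exact inv_anti₀ (by positivity) big
      · simp; positivity
  simpa [ContinuousLinearMap.sum_apply, Be] using E1

lemma nosg (a : ℝ → E) (h : ∀ s t, 0 < s → 0 < t → B (a s) (a t) = a (s + t))
    (hc : ContinuousOn a (Ioi 0)) (t0 : ℝ) (ht : 0 < t0) : a t0 = 0 := by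
  by_contra h0
  let b : ℝ → E := fun t => a (t * (t0 / 4))
  have hb : ∀ s t, 1 ≤ s → 1 ≤ t → B (b s) (b t) = b (s + t) := fun s t hs ht' => by
    simp only [b]
    rw [h _ _ (by positivity) (by positivity), add_mul]
  have b4 : b 4 = a t0 := by simp only [b]; congr 1; ring
  obtain ⟨M, hM⟩ := isCompact_Icc.exists_bound_of_continuousOn (f := b) (s := Icc 1 4)
    (hc.comp (by fun_prop) fun t h => mul_pos (one_pos.trans_le h.1) (by positivity))
  obtain ⟨q, hq⟩ : ∃ q, c q (b 4) ≠ 0 := by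
    by_contra H
    push Not at H
    refine h0 (b4 ▸ lp.ext (funext fun q => ?_))
    simpa [c_apply, (ω0 q).ne'] using H q
  have q01 : 0 < q ∧ q ≤ 1 := by_contra fun H => hq (by
    rw [show (4 : ℝ) = 2 + 2 by norm_num, ← hb 2 2 one_le_two one_le_two]; exact supp q H _ _)
  obtain ⟨n0, hn0⟩ := exG q
  obtain ⟨n1, hn1⟩ := exists_nat_ge M
  obtain ⟨n2, hn2⟩ := exists_nat_one_div_lt (norm_pos_iff.2 hq)
  obtain ⟨n, g0, g1, g2, g3⟩ : ∃ n, n0 ≤ n ∧ n1 ≤ n ∧ n2 ≤ n ∧ 1 ≤ n :=
    ⟨n0 + n1 + n2 + 1, by omega, by omega, by omega, by omega⟩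
  have Mn : ∀ t ∈ Icc (1 : ℝ) 4, ‖b t‖ ≤ n := fun t h =>
    (hM t h).trans (hn1.trans (by exact_mod_cast g1))
  have f0 : (0 : ℚ) < n.factorial := by exact_mod_cast n.factorial_pos
  classical
  refine eta_spec n (fun t k => if t ∈ Icc (1 : ℝ) 4 then cc n k (b t) else 0)
    ⟨fun t k => ?_, fun t => by simp [cc], ?_, fun s t k hs ht' hst hk => ?_⟩
  · beta_reduce
    split_ifs with h
    · refine le_trans ?_ (Mn t h)
      unfold cc
      split_ifs
      · simp
      · exact c_le _ _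
    · simp
  · obtain ⟨k, rfl⟩ := hn0.mono g0
    have : (0 : ℚ) < k := (div_pos_iff_of_pos_right f0).1 q01.1
    have k0 : 0 < k := by exact_mod_cast this
    lift k to ℕ using k0.le
    have k1 : k ≤ n.factorial := by exact_mod_cast (div_le_one f0).1 q01.2
    refine le_trans ?_ (Finset.single_le_sum (f := fun k => ‖if (4 : ℝ) ∈ Icc (1 : ℝ) 4 then
      cc n k (b 4) else 0‖) (fun _ _ => norm_nonneg _) (Finset.mem_range.2 (Nat.lt_succ_of_le k1)))
    beta_reduce
    rw [if_pos (by norm_num), cc, if_neg (by omega)]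
    exact (Nat.one_div_le_one_div g2).trans (by simpa using hn2.le)
  · have m1 : s ∈ Icc (1 : ℝ) 4 := ⟨hs, by linarith⟩
    have m2 : t ∈ Icc (1 : ℝ) 4 := ⟨ht', by linarith⟩
    have m3 : s + t ∈ Icc (1 : ℝ) 4 := ⟨by linarith, hst⟩
    simp only [if_pos m1, if_pos m2, if_pos m3]
    rw [← hb s t hs ht']
    refine (approx n k g3 hk _ _).trans ?_
    have := eta_pos n
    have : (0 : ℝ) < n := by exact_mod_cast g3
    calc _ ≤ eta n / n ^ 2 * n * n := by
          gcongr
          exacts [Mn s m1, Mn t m2]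
      _ = _ := by field_simp

lemma esterle {A : Type} [NormedCommRing A] [NormedAlgebra ℂ A] [CompleteSpace A] (x : ℕ → A)
    (h : ∀ n, x n = x (n + 1) ^ 3) (h0 : x 0 ≠ 0)
    (hu : ∀ n (ε : ℂ), ε ≠ 0 → IsUnit (algebraMap ℂ A ε + x n ^ 2)) :
    ∃ a ≠ 0, a ∈ closure {y | ∃ n u, y = x n * u} ∧
      ∀ η > 0, ∃ n w, ‖a - a * a * (x n * w)‖ < η := by
  have step : ∀ n (p : Aˣ × ℝ), ∃ p' : Aˣ × ℝ, 0 < p.2 → (0 < p'.2 ∧
      ‖x (n + 1) * p'.1 - x n * p.1‖ ≤ p.2 / 2 ∧ p'.2 ≤ p.2 / 2 ∧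
      p'.2 * ‖x (n + 1) * (p'.1⁻¹ ^ 2 * p.1 : Aˣ)‖ ≤ 1 / (n + 1)) := fun n p => by
    by_cases hp : 0 < p.2
    swap
    · exact ⟨p, fun h => absurd h hp⟩
    have := norm_nonneg (x (n + 1) * p.1)
    let ε : ℝ := p.2 / 2 / (‖x (n + 1) * p.1‖ + 1)
    have ε0 : 0 < ε := by positivity
    obtain ⟨v, hv⟩ := hu (n + 1) ε (Complex.ofReal_ne_zero.2 ε0.ne')
    have := norm_nonneg (x (n + 1) * ((v * p.1)⁻¹ ^ 2 * p.1 : Aˣ))
    refine ⟨(v * p.1, min (p.2 / 2) (1 / (n + 1) / (‖x (n + 1) * ((v * p.1)⁻¹ ^ 2 * p.1 : Aˣ)‖ + 1))),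
      fun _ => ⟨by positivity, ?_, min_le_left _ _, ?_⟩⟩
    · have e : x (n + 1) * (v * p.1 : Aˣ) - x n * p.1 = (ε : ℂ) • (x (n + 1) * p.1) := by
        rw [Units.val_mul, hv, h n, Algebra.smul_def]; ring
      rw [e, norm_smul, Complex.norm_real, Real.norm_of_nonneg ε0.le, div_mul_eq_mul_div,
        div_le_iff₀ (by positivity)]
      nlinarith
    · refine (mul_le_mul_of_nonneg_right (min_le_right _ _) (norm_nonneg _)).trans ?_
      rw [div_mul_eq_mul_div, div_le_iff₀ (by positivity)]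
      gcongr
      exact le_add_of_nonneg_right zero_le_one
  choose F hF using step
  let p : ℕ → Aˣ × ℝ := fun n => Nat.rec (1, ‖x 0‖ / 2) F n
  have x0 := norm_pos_iff.2 h0
  have pos : ∀ n, 0 < (p n).2 := fun n => by
    induction n with
    | zero => exact half_pos x0
    | succ n ih => exact (hF n _ ih).1
  have H := fun n => (hF n _ (pos n)).2
  let c : ℕ → A := fun n => x n * (p n).1
  have d : ∀ n m, n ≤ m → ‖c m - c n‖ ≤ (p n).2 - (p m).2 := fun n m hm => by
    induction m, hm using Nat.le_induction with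
    | base => simp
    | succ m hm ih =>
      have h1 : ‖c (m + 1) - c m‖ ≤ (p m).2 / 2 := (H m).1
      have h2 : (p (m + 1)).2 ≤ (p m).2 / 2 := (H m).2.1
      have := norm_sub_le_norm_sub_add_norm_sub (c (m + 1)) (c m) (c n)
      linarith
  have t0 : Tendsto (fun n => (p n).2) atTop (𝓝 0) := by
    refine squeeze_zero (g := fun n => (p 0).2 * (1 / 2) ^ n) (fun n => (pos n).le) (fun n => ?_)
      (by simpa using (tendsto_pow_atTop_nhds_zero_of_lt_one (r := (1 / 2 : ℝ)) (by norm_num)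
        (by norm_num)).const_mul (p 0).2)
    induction n with
    | zero => simp
    | succ n ih =>
      have h2 : (p (n + 1)).2 ≤ (p n).2 / 2 := (H n).2.1
      rw [pow_succ, ← mul_assoc]
      linarith
  obtain ⟨a, ha⟩ := cauchySeq_tendsto_of_complete (u := c) (cauchySeq_of_le_tendsto_0' _
    (fun n m hm => by rw [dist_comm, dist_eq_norm]; linarith [d n m hm, pos m]) t0)
  have da : ∀ n, ‖a - c n‖ ≤ (p n).2 := fun n =>
    le_of_tendsto (ha.sub_const (c n)).norm
      ((eventually_ge_atTop n).mono fun m hm => by linarith [d n m hm, pos m])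
  refine ⟨a, fun h => ?_, mem_closure_of_tendsto ha (Eventually.of_forall fun n => ⟨n, _, rfl⟩),
    fun η hη => ?_⟩
  · have := da 0
    rw [h, zero_sub, norm_neg] at this
    have e : ‖x 0 * 1‖ ≤ ‖x 0‖ / 2 := this
    rw [mul_one] at e
    linarith
  have t1 := t0.add (tendsto_one_div_add_atTop_nhds_zero_nat.const_mul (2 * ‖a‖ + (p 0).2))
  obtain ⟨n, hn⟩ := (t1.eventually (gt_mem_nhds (by simpa using hη))).exists
  refine ⟨n + 1, ((p (n + 1)).1⁻¹ ^ 2 * (p n).1 : Aˣ), lt_of_le_of_lt ?_ hn⟩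
  have h3 : (p (n + 1)).2 * ‖x (n + 1) * ((p (n + 1)).1⁻¹ ^ 2 * (p n).1 : Aˣ)‖ ≤ 1 / (n + 1) :=
    (H n).2.2
  have e : c n = c (n + 1) * c (n + 1) * (x (n + 1) * ((p (n + 1)).1⁻¹ ^ 2 * (p n).1 : Aˣ)) := by
    have := (p (n + 1)).1.mul_inv
    simp only [c, Units.val_mul, Units.val_pow_eq_pow_val]
    rw [h n]
    linear_combination (-(x (n + 1) ^ 3 * (p n).1) *
      (1 + (p (n + 1)).1 * ((p (n + 1)).1⁻¹ : Aˣ))) * this
  generalize x (n + 1) * ((p (n + 1)).1⁻¹ ^ 2 * (p n).1 : Aˣ) = w at h3 e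
  have e2 : a - a * a * w = (a - c n) - (a - c (n + 1)) * (a + c (n + 1)) * w := by rw [e]; ring
  have b1 : ‖a + c (n + 1)‖ ≤ 2 * ‖a‖ + (p 0).2 := by
    rw [show a + c (n + 1) = a + a - (a - c (n + 1)) by ring]
    linarith [norm_sub_le (a + a) (a - c (n + 1)), norm_add_le a a, da (n + 1),
      d 0 (n + 1) (by omega), norm_nonneg (c (n + 1) - c 0)]
  rw [e2]
  refine (norm_sub_le _ _).trans (add_le_add (da n) ?_)
  calc _ ≤ ‖a - c (n + 1)‖ * ‖a + c (n + 1)‖ * ‖w‖ :=
        (norm_mul_le _ _).trans (mul_le_mul_of_nonneg_right (norm_mul_le _ _) (norm_nonneg _))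
    _ ≤ (p (n + 1)).2 * (2 * ‖a‖ + (p 0).2) * ‖w‖ := by
        have := pos (n + 1)
        gcongr
        exact da _
    _ = (2 * ‖a‖ + (p 0).2) * ((p (n + 1)).2 * ‖w‖) := by ring
    _ ≤ _ := mul_le_mul_of_nonneg_left h3 (by have := pos 0; positivity)

def R : Type := E

instance nacg : NormedAddCommGroup R := (inferInstance : NormedAddCommGroup E)
instance : NonUnitalNormedCommRing R :=
  { nacg with
    mul := fun x y => B x y
    left_distrib := fun x y z => map_add (B x) y z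
    right_distrib := fun x y z => map_add (B.flip z) x y
    zero_mul := fun x => map_zero (B.flip x)
    mul_zero := fun x => map_zero (B x)
    mul_assoc := Bassoc
    mul_comm := Bcomm
    norm_mul_le := exB.choose_spec.2 }

instance : NormedSpace ℂ R := (inferInstance : NormedSpace ℂ E)
instance : CompleteSpace R := (inferInstance : CompleteSpace E)
instance : IsScalarTower ℂ R R := ⟨fun c x y => map_smul (B.flip y) c x⟩
instance : SMulCommClass ℂ R R := ⟨fun c x y => (map_smul (B x) c y).symm⟩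

abbrev A := WithLp 1 (Unitization ℂ R)
instance : NormedCommRing A :=
  { (inferInstance : NormedRing A) with mul_comm := fun x y => congrArg (WithLp.toLp 1) (mul_comm x.ofLp y.ofLp) }

def ι (x : R) : A := WithLp.toLp 1 (x : Unitization ℂ R)
lemma ι_mul (x y : R) : ι (x * y) = ι x * ι y := congrArg (WithLp.toLp 1) (Unitization.inr_mul ℂ x y)
lemma ι_iso : Isometry ι := WithLp.unitization_isometry_inr
def ιL : E →L[ℂ] A where
  toFun := ι
  map_add' x y := congrArg (WithLp.toLp 1) (Unitization.inr_add ℂ (show R from x) y)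
  map_smul' c x := congrArg (WithLp.toLp 1) (Unitization.inr_smul ℂ c (show R from x))
  cont := ι_iso.continuous

lemma spec (x : R) (z : ℂ) (hz : z ∈ spectrum ℂ (ι x)) : z = 0 := by
  obtain ⟨f, rfl⟩ := WeakDual.CharacterSpace.mem_spectrum_iff_exists.1 hz
  let g : E →L[ℂ] ℂ := (WeakDual.CharacterSpace.toCLM f).comp ιL
  have hg : ∀ x y, g (B x y) = g x * g y := fun x y => by
    show f (ι ((show R from x) * (show R from y))) = f (ι x) * f (ι y)
    rw [ι_mul, map_mul]
  have : g = 0 := ext_e fun s => by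
    show g (e ℂ s) = 0
    by_cases h : 0 < s ∧ s ≤ 1
    · have p : ∀ n : ℕ, g (δ s) ^ (n + 1) = g (δ ((n + 1) * s)) := fun n => by
        induction n with
        | zero => simp
        | succ n ih =>
          rw [pow_succ, ih, ← hg, Bδδ (mul_pos (by positivity) h.1) h.1]
          congr 2; push_cast; ring
      obtain ⟨n, hn⟩ := exists_nat_gt (1 / s)
      rw [div_lt_iff₀ h.1] at hn
      have := p n
      rw [δ.eq_1 (_ * s), if_neg (fun h' => by linarith [h'.2, h.1]), map_zero,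
        pow_eq_zero_iff (by omega), δ, if_pos h, map_smul] at this
      simpa [(ω0 s).ne'] using this
    · have := hg (e ℂ s) (e ℂ s)
      have z : m s s = 0 := by
        unfold m
        split_ifs with h2
        · rw [δ, if_neg fun h' => h ⟨h2.1, by linarith [h'.2, h2.1]⟩, smul_zero]
        · rfl
      rw [Be, z, map_zero] at this
      exact mul_self_eq_zero.1 this.symm
  exact DFunLike.congr_fun this x

lemma δ1 : δ 1 ≠ 0 := fun h => by
  have := c_δ 1 1
  rw [h] at this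
  simp at this

/-- Every element has spectral radius `0` (computed in the unitisation). -/
def Radical (S : Type) [NonUnitalNormedCommRing S] [NormedSpace ℂ S] [IsScalarTower ℂ S S]
    [SMulCommClass ℂ S S] : Prop :=
  ∀ x : S, spectralRadius ℂ (x : Unitization ℂ S) = 0

/-- `a ∈ [a² S]⁻` for some `a ≠ 0`. -/
def HasV (S : Type) [NonUnitalNormedCommRing S] : Prop :=
  ∃ a : S, a ≠ 0 ∧ a ∈ closure (range fun x => a * a * x)

/-- There is a nonzero rational semigroup. -/
def HasRat (S : Type) [NonUnitalNormedCommRing S] : Prop :=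
  ∃ a : ℚ → S, (∀ s t, 0 < s → 0 < t → a s * a t = a (s + t)) ∧ ∃ t, 0 < t ∧ a t ≠ 0

/-- There is a nonzero continuous real semigroup. -/
def HasCts (S : Type) [NonUnitalNormedCommRing S] : Prop :=
  ∃ a : ℝ → S, (∀ s t, 0 < s → 0 < t → a s * a t = a (s + t)) ∧ ContinuousOn a (Ioi 0) ∧
    ∃ t, 0 < t ∧ a t ≠ 0

theorem result : ∃ (S : Type) (_ : NonUnitalNormedCommRing S) (_ : NormedSpace ℂ S)
    (_ : IsScalarTower ℂ S S) (_ : SMulCommClass ℂ S S), CompleteSpace S ∧ Radical S ∧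
    ¬ FiniteDimensional ℂ S ∧ HasV S ∧ HasRat S ∧ ¬ HasCts S := by
  refine ⟨R, inferInstance, inferInstance, inferInstance, inferInstance, inferInstance,
    fun x => ?_, fun h => ?_, ?_, ⟨δ, fun s t => Bδδ, 1, one_pos, δ1⟩,
    fun ⟨a, h1, h2, t, ht, h3⟩ => h3 (nosg a h1 h2 t ht)⟩
  · refine le_antisymm (iSup₂_le fun z hz => ?_) zero_le'
    rw [spec x z ((AlgEquiv.spectrum_eq (WithLp.unitizationAlgEquiv ℂ) (ι x)) ▸ hz)]
    simp
  · have li : LinearIndependent ℂ (e ℂ : ℚ → E) :=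
      LinearIndependent.of_pairwise_dual_eq_zero_one _
        (fun q => (lp.evalCLM ℂ (fun _ : ℚ => ℂ) 1 q).toLinearMap)
        (fun i j h => by simp [e, lp.evalCLM, lp.single_apply, Pi.single_apply, h])
        fun i => by simp [e, lp.evalCLM]
    haveI : Module.Finite ℂ E := h
    exact not_finite_iff_infinite.2 inferInstance li.finite
  · have pos : ∀ n : ℕ, (0 : ℚ) < 1 / 3 ^ n := fun n => by positivity
    obtain ⟨a, a0, h1, h2⟩ := esterle (fun n => ι (δ (1 / 3 ^ n))) (fun n => by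
      rw [pow_three, ← ι_mul, ← ι_mul]
      show _ = ι (B _ (B _ _))
      rw [Bδδ (pos _) (pos _), Bδδ (pos _) (by positivity)]
      congr 2; field_simp; ring)
      (fun h => δ1 (ι_iso.injective (Eq.trans (by simpa using h) (map_zero ιL).symm)))
      (fun n ε hε => by
        rw [sq, ← ι_mul]
        by_contra h
        refine hε (neg_eq_zero.1 (spec (B (δ (1 / 3 ^ n)) (δ (1 / 3 ^ n))) _ fun h' => h ?_))
        have := IsUnit.neg h'
        rw [map_neg, neg_sub, sub_neg_eq_add, add_comm] at this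
        exact this)
    have id : ∀ (r : R) (u : A), ∃ r', ι r' = ι r * u := fun r u =>
      ⟨u.ofLp.fst • r + r * u.ofLp.snd, congrArg (WithLp.toLp 1) (by ext <;> simp [ι])⟩
    obtain ⟨a, rfl⟩ : a ∈ range ι := ι_iso.isClosedEmbedding.isClosed_range.closure_subset_iff.2
      (by rintro _ ⟨n, u, rfl⟩; exact id _ _) h1
    refine ⟨a, fun h => a0 (h ▸ map_zero ιL), Metric.mem_closure_iff.2 fun η hη => ?_⟩
    obtain ⟨n, w, hw⟩ := h2 η hη
    obtain ⟨r, hr⟩ := id (δ (1 / 3 ^ n)) w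
    refine ⟨_, ⟨r, rfl⟩, ?_⟩
    rw [← ι_iso.dist_eq, dist_eq_norm, ι_mul, ι_mul, hr]
    exact hw

end Pool.Agent.Results.MP_fd6f9a_an.ClassV
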